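import Pool.Agent.H26.LV.TargetsAri

/-!
# The arithmetic majorant

Row ARI of the board `ari_modules`.
-/

set_option autoImplicit false

open Finset Polynomial Pool.Agent.H26.LV

namespace Pool.Agent.H12.LV

/-- the polynomial -/
noncomputable def FP {k : ℕ} (f : Fin k → ℤ) : ℤ[X] :=
  ∑ i : Fin k, if i.val = 0 then 0 else C (f i) * X ^ (i.val + 1)

theorem FP_natDegree {k : ℕ} (f : Fin k → ℤ) : (FP f).natDegree ≤ k := by
  unfold FP
  apply natDegree_sum_le_of_forall_le
  intro i _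
  split_ifs
  · simp
  · exact (natDegree_C_mul_X_pow_le _ _).trans i.2

theorem FP_coeff {k : ℕ} (f : Fin k → ℤ) (i : Fin k) (hi : i.val ≠ 0) :
    (FP f).coeff (i.val + 1) = f i := by
  unfold FP
  rw [finset_sum_coeff, Finset.sum_eq_single i]
  · rw [if_neg hi, coeff_C_mul, coeff_X_pow, if_pos rfl, mul_one]
  · intro b _ hb
    split_ifs with h
    · simp
    · rw [coeff_C_mul, coeff_X_pow, if_neg, mul_zero]
      intro h2
      apply hb
      exact Fin.ext (by omega)
  · intro h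
    exact absurd (Finset.mem_univ i) h

theorem FP_eval {k : ℕ} (f : Fin k → ℤ) (z : ℤ) :
    ((FP f).eval z : ℤ) = ∑ i : Fin k, (if i.val = 0 then 0 else f i * z ^ (i.val + 1)) := by
  unfold FP
  rw [eval_finset_sum]
  refine Finset.sum_congr rfl fun i _ => ?_
  split_ifs <;> simp

theorem e_coe (x : ℝ) : Pool.Agent.H24.CL.e (x : UnitAddCircle) =
    Complex.exp (2 * Real.pi * Complex.I * (x : ℂ)) := by
  unfold Pool.Agent.H24.CL.e
  rw [AddCircle.toCircle_apply_mk, Circle.coe_exp]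
  congr 1
  push_cast
  ring

theorem Al_eq {k : ℕ} (q : ℕ) (f : Fin k → ℤ) : Pool.Agent.H24.LV.Al q f = AA q (FP f) := by
  funext l
  unfold Pool.Agent.H24.LV.Al AA SS
  congr 3
  refine Finset.sum_congr rfl fun z _ => ?_
  rw [e_coe]
  unfold ee
  congr 1
  rw [eval_sub, eval_mul, eval_C, eval_X, FP_eval]
  push_cast
  congr 2
  congr 1
  refine Finset.sum_congr rfl fun i _ => ?_
  split_ifs <;> simp

/-- ARI: the majorant. -/
theorem pf_ARI (hARP : T_ARP) : T_ARI := by
  intro k hk ε hε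
  obtain ⟨C₀, hC, hA⟩ := hARP k hk ε hε
  refine ⟨C₀, hC, ?_⟩
  intro q f hq hf
  rw [Al_eq]
  refine hA q (FP f) hq (FP_natDegree f) ?_
  intro p hp
  have hpp := Nat.prime_of_mem_primeFactors hp
  have hpq := Nat.dvd_of_mem_primeFactors hp
  by_contra hcon
  have h1 : ∀ i : Fin k, i.val ≠ 0 → (p : ℤ) ∣ f i := by
    intro i hi
    by_contra h
    apply hcon
    refine ⟨i.val + 1, by omega, ?_⟩
    rw [FP_coeff f i hi]
    exact h
  exact hpp.one_lt.ne' (hf p hpq h1)

end Pool.Agent.H12.LV
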