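import Pool.Agent.H26.LV.TargetsAri

/-!
# The terminal discs

Row TER of the board `ari_modules`.
-/

set_option autoImplicit false

open Finset Polynomial Pool.Agent.H26.LV

namespace Pool.Agent.H12.LV

theorem norm_ee (q : ℕ) (n : ℤ) : ‖ee q n‖ = 1 := by
  unfold ee
  have e : 2 * (Real.pi : ℂ) * Complex.I * ((n : ℂ) / (q : ℂ)) =
      ((2 * Real.pi * ((n : ℝ) / (q : ℝ)) : ℝ) : ℂ) * Complex.I := by
    push_cast
    ring
  rw [e, Complex.norm_exp_ofReal_mul_I]

theorem norm_SS_le (q : ℕ) (g : ℤ[X]) : ‖SS q g‖ ≤ 1 := by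
  unfold SS
  rw [norm_mul, norm_div, norm_one, Complex.norm_natCast]
  have h1 : ‖∑ z ∈ range q, ee q (g.eval (z : ℤ))‖ ≤ q := by
    refine (norm_sum_le _ _).trans ?_
    rw [Finset.sum_congr rfl fun z _ => norm_ee q _]
    simp
  rcases Nat.eq_zero_or_pos q with h | h
  · subst h
    simp
  · have h2 : (0 : ℝ) < q := by exact_mod_cast h
    rw [one_div, inv_mul_le_iff₀ h2, mul_one]
    exact h1

/-- the linear polynomial -/
theorem lin_coeff_ge (a b : ℤ) (j : ℕ) (hj : 2 ≤ j) : (C a + C b * X : ℤ[X]).coeff j = 0 := by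
  rw [coeff_add, coeff_C_mul, coeff_C, coeff_X]
  rw [if_neg (by omega), if_neg (by omega)]
  simp

theorem lin_coeff_one (a b : ℤ) : (C a + C b * X : ℤ[X]).coeff 1 = b := by
  rw [coeff_add, coeff_C_mul, coeff_C, coeff_X]
  simp

theorem natDegree_CX (a : ℤ) : (C a * X : ℤ[X]).natDegree ≤ 1 :=
  (natDegree_C_mul_le a X).trans natDegree_X_le

theorem dsc_sub (p i : ℕ) (y l : ℤ) (F : ℤ[X]) :
    dsc p i y (F - C l * X) = dsc p i y F - C l * (C y + C ((p : ℤ) ^ i) * X) := by
  unfold dsc
  rw [sub_comp, mul_comp, C_comp, X_comp]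

theorem dsc_coeff_ge (p i : ℕ) (y l : ℤ) (F : ℤ[X]) (j : ℕ) (hj : 2 ≤ j) :
    (dsc p i y (F - C l * X)).coeff j = (dsc p i y F).coeff j := by
  rw [dsc_sub, coeff_sub, coeff_C_mul, lin_coeff_ge _ _ j hj, mul_zero, sub_zero]

/-- TER: the terminal discs. -/
theorem pf_TER (hQUA : T_QUA) (hWEM : T_WEM) (hDSR : T_DSR) (hVAL : T_VAL) : T_TER := by
  intro k hk
  refine ⟨(k : ℝ) ^ 2 + 2, by nlinarith [sq_nonneg (k : ℝ)], ?_⟩
  intro p m i v μ y F l hp hF hiv hvm hV hcase
  have hp0 : (p : ℤ) ≠ 0 := by exact_mod_cast hp.ne_zero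
  have hpr : (0 : ℝ) < p := by exact_mod_cast hp.pos
  set G := dsc p i y (F - C l * X) with hG
  have hGge : ∀ j, 2 ≤ j → G.coeff j = (dsc p i y F).coeff j := fun j hj =>
    dsc_coeff_ge p i y l F j hj
  have hG1 : G.coeff 1 = (p : ℤ) ^ i * ((derivative F).eval y - l) := by
    rw [hG, dsc_sub, coeff_sub, coeff_C_mul, lin_coeff_one, hVAL.2.1, hasseDeriv_one]
    ring
  have hGV : Vge p v G := fun j hj => by rw [hGge j hj]; exact hV j hj
  obtain ⟨d1, d2⟩ := hDSR p m i v G hp hiv hvm hGV (by rw [hG1]; exact Dvd.intro _ rfl)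
  have hcD : cD p m i y F l = (1 / (p : ℂ) ^ m) *
      ∑ z ∈ range (p ^ (m - i)), ee (p ^ m) (G.eval (z : ℤ)) := rfl
  have hdvd : (p : ℤ) ^ v ∣ G.coeff 1 ↔ (p : ℤ) ^ (v - i) ∣ l - (derivative F).eval y := by
    have e1 : (p : ℤ) ^ v = (p : ℤ) ^ i * (p : ℤ) ^ (v - i) := by
      rw [← pow_add]; congr 1; omega
    rw [hG1, e1, mul_dvd_mul_iff_left (pow_ne_zero _ hp0), ← dvd_neg, neg_sub]
  by_cases hd : (p : ℤ) ^ (v - i) ∣ l - (derivative F).eval y
  · rw [if_pos hd]
    -- the quotient polynomial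
    have hall : C ((p : ℤ) ^ v) ∣ G - C (G.coeff 0) := by
      rw [C_dvd_iff_dvd_coeff]
      intro j
      rcases j with _ | j
      · simp
      · rw [coeff_sub, coeff_C_succ, sub_zero]
        rcases j with _ | j
        · exact hdvd.mpr hd
        · exact hGV (j + 1 + 1) (by omega)
    obtain ⟨g, hg⟩ := hall
    have hGg : G = C (G.coeff 0) + C ((p : ℤ) ^ v) * g := by rw [← hg]; ring
    have hcoeff : ∀ j, 1 ≤ j → G.coeff j = (p : ℤ) ^ v * g.coeff j := by
      intro j hj
      have h1 := congrArg (fun Q : ℤ[X] => Q.coeff j) hg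
      simp only [coeff_sub, coeff_C_mul] at h1
      rw [← h1, coeff_C, if_neg (by omega), sub_zero]
    have hnorm := d2 g (G.coeff 0) hGg
    rw [hcD, hnorm, mul_pow, div_pow, one_pow, ← pow_mul]
    -- the bound of the sum
    have hS : ‖SS (p ^ (m - v)) g‖ ^ 2 ≤ ((k : ℝ) ^ 2 + 2) / (p : ℝ) ^ (m - v) := by
      have htriv : ‖SS (p ^ (m - v)) g‖ ^ 2 ≤ 1 :=
        pow_le_one₀ (norm_nonneg _) (norm_SS_le _ _)
      rcases hcase with h | ⟨h, hn⟩ | ⟨hμ, hgen⟩
      · rw [h, Nat.sub_self, pow_zero, pow_zero, div_one]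
        rw [h, Nat.sub_self, pow_zero] at htriv
        have : (0 : ℝ) ≤ (k : ℝ) ^ 2 := by positivity
        linarith
      · have hmv : m - v = 1 := by omega
        rw [hmv, pow_one, pow_one]
        rw [hmv, pow_one] at htriv
        by_cases hkp : k < p
        · have hdeg : g.natDegree ≤ k := by
            rw [natDegree_le_iff_coeff_eq_zero]
            intro j hj
            have h1 := hcoeff j (by omega)
            have h2 : G.coeff j = 0 := by
              apply coeff_eq_zero_of_natDegree_lt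
              refine lt_of_le_of_lt ?_ hj
              rw [hG]
              unfold dsc
              refine natDegree_comp_le.trans ?_
              have h3 : (F - C l * X : ℤ[X]).natDegree ≤ k := by
                refine (natDegree_sub_le _ _).trans (max_le hF ?_)
                exact (natDegree_CX l).trans (by omega)
              have h4 : (C y + C ((p : ℤ) ^ i) * X : ℤ[X]).natDegree ≤ 1 := by
                refine (natDegree_add_le _ _).trans (max_le ?_ (natDegree_CX _))
                rw [natDegree_C]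
                omega
              calc (F - C l * X : ℤ[X]).natDegree * (C y + C ((p : ℤ) ^ i) * X : ℤ[X]).natDegree
                  ≤ k * 1 := Nat.mul_le_mul h3 h4
                _ = k := mul_one k
            rw [h2] at h1
            exact (mul_eq_zero.mp h1.symm).resolve_left (pow_ne_zero _ hp0)
          have hprm : Prm p g := by
            unfold Vge at hn
            push Not at hn
            obtain ⟨j, hj, hj2⟩ := hn
            refine ⟨j, hj, fun hpg => hj2 ?_⟩
            rw [← hGge j hj, hcoeff j (by omega), pow_succ]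
            exact mul_dvd_mul_left _ hpg
          refine (hWEM k p g hp hkp hdeg hprm).trans ?_
          exact div_le_div_of_nonneg_right (by linarith) hpr.le
        · refine htriv.trans ?_
          rw [le_div_iff₀ hpr, one_mul]
          have h1 : (p : ℝ) ≤ k := by exact_mod_cast (not_lt.mp hkp)
          have h2 : (1 : ℝ) ≤ k := by
            have : 1 ≤ k := by omega
            exact_mod_cast this
          nlinarith
      · obtain ⟨g1, g2, g3⟩ := hgen
        have e2 := hcoeff 2 (by norm_num)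
        rw [hGge 2 le_rfl] at e2
        have h1 : ¬ (p : ℤ) ∣ g.coeff 2 := by
          intro hpg
          apply g2
          rw [e2, pow_succ]
          exact mul_dvd_mul_left _ hpg
        have h2 : ∀ j, 3 ≤ j → (p : ℤ) ^ μ ∣ g.coeff j := by
          intro j hj
          have h3 := g3 j hj
          rw [← hGge j (by omega), hcoeff j (by omega), pow_add] at h3
          exact (mul_dvd_mul_iff_left (pow_ne_zero _ hp0)).mp h3
        refine (hQUA p (m - v) μ g hp hμ h1 h2).trans ?_
        refine div_le_div_of_nonneg_right ?_ (by positivity)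
        have : (0 : ℝ) ≤ (k : ℝ) ^ 2 := by positivity
        linarith
    calc 1 / (p : ℝ) ^ (i * 2) * ‖SS (p ^ (m - v)) g‖ ^ 2
        ≤ 1 / (p : ℝ) ^ (i * 2) * (((k : ℝ) ^ 2 + 2) / (p : ℝ) ^ (m - v)) :=
          mul_le_mul_of_nonneg_left hS (by positivity)
      _ = ((k : ℝ) ^ 2 + 2) / (p : ℝ) ^ (2 * i + (m - v)) := by
          rw [pow_add, mul_comm 2 i]
          field_simp
  · rw [if_neg hd, hcD, d1 (fun h => hd (hdvd.mp h)), mul_zero, norm_zero]
    norm_num

end Pool.Agent.H12.LV
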